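import Pool.Agent.W682.BQ.Asm
import Pool.Agent.W682.BQ.Tor

set_option autoImplicit false

/-! # Sverak's conjecture on the torus

For every `f` in `W^{1,2}(T^2, ℂ)` the integral of the Burkholder-Sverak function `L(∂f, ∂̄f)` over
the torus is nonnegative.  The proof (project BQ) is a heat-flow argument: a quasilinear parabolic
flow on the torus with a large diffusion coefficient near `∂̄f = 0`, closed two-forms, and a
superposition of kernels. -/

namespace Pool.Agent.Results.MP_3a126c_an.SverakTorus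

open MeasureTheory Set

/-- the closed unit square -/
def Q : Set (Fin 2 → ℝ) := Icc 0 1

/-- smooth functions on the torus: smooth and `1`-periodic in both variables -/
def TestFn (φ : (Fin 2 → ℝ) → ℂ) : Prop :=
  ContDiff ℝ (⊤ : ℕ∞) φ ∧ ∀ (x : Fin 2 → ℝ) (i : Fin 2), φ (x + Pi.single i 1) = φ x

/-- `f` belongs to `W^{1,2}` of the torus and its weak partial derivatives are `g 0`, `g 1` -/
structure IsW12 (f : (Fin 2 → ℝ) → ℂ) (g : Fin 2 → (Fin 2 → ℝ) → ℂ) : Prop where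
  hf : MemLp f 2 (volume.restrict Q)
  hg : ∀ i, MemLp (g i) 2 (volume.restrict Q)
  weak : ∀ φ : (Fin 2 → ℝ) → ℂ, TestFn φ → ∀ i,
    ∫ x in Q, f x * fderiv ℝ φ x (Pi.single i 1) = -∫ x in Q, g i x * φ x

/-- the Burkholder-Sverak function -/
noncomputable def L (z w : ℂ) : ℝ :=
  if ‖z‖ + ‖w‖ ≤ 1 then ‖z‖ ^ 2 - ‖w‖ ^ 2 else 2 * ‖z‖ - 1

/-- **Sverak's conjecture**: for every `f ∈ W^{1,2}(T^2, ℂ)` with weak derivatives
`f_x = g 0`, `f_y = g 1`, the function `L(∂f, ∂̄f)`, `∂f = (f_x - i f_y)/2`,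
`∂̄f = (f_x + i f_y)/2`, is integrable and its integral is nonnegative. -/
theorem result : ∀ (f : (Fin 2 → ℝ) → ℂ) (g : Fin 2 → (Fin 2 → ℝ) → ℂ), IsW12 f g →
    IntegrableOn (fun x => L ((g 0 x - Complex.I * g 1 x) / 2)
      ((g 0 x + Complex.I * g 1 x) / 2)) Q ∧
    0 ≤ ∫ x in Q, L ((g 0 x - Complex.I * g 1 x) / 2) ((g 0 x + Complex.I * g 1 x) / 2) := by
  intro f g h
  exact Pool.Agent.W682.BQ.Tor.main Pool.Agent.W682.BQ.Asm.qlb f g ⟨h.hf, h.hg, h.weak⟩

end Pool.Agent.Results.MP_3a126c_an.SverakTorus
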